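import Pool.Agent.P.MP_4a6a31_lc.NoRef

/-! The halving group of the tree of nodes and the frame whose atoms are subsets of it. -/

namespace Pool.Agent.P.MP_4a6a31_lc.SP

universe u

open Equiv VV

abbrev Ci : Type := AddCircle (1 : ℚ)

/-- Functions on nodes and columns that vanish at the root and are halved along every edge. -/
def Gm (I : Type u) : AddSubgroup (Nd.{u} × I → Ci) where
  carrier := {g | (∀ i, g ([], i) = 0) ∧ ∀ l s i, g (l :: s, i) + g (l :: s, i) = g (s, i)}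
  zero_mem' := ⟨fun _ => rfl, fun _ _ _ => add_zero _⟩
  add_mem' := fun {a b} ha hb => ⟨fun i => by rw [Pi.add_apply, ha.1, hb.1, add_zero],
    fun l s i => by rw [Pi.add_apply, Pi.add_apply, ← ha.2 l s i, ← hb.2 l s i]; abel⟩
  neg_mem' := fun {a} ha => ⟨fun i => by rw [Pi.neg_apply, ha.1, neg_zero],
    fun l s i => by rw [Pi.neg_apply, Pi.neg_apply, ← ha.2 l s i]; abel⟩

/-- Atoms: a subset of the group and a tag. -/
abbrev Bt (I : Type u) : Type (u + 1) := Set (Gm I) × Ordinal.{u}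

variable {I : Type u}

def pre (e : Perm (Gm I)) : Perm (Bt I) where
  toFun a := (e ⁻¹' a.1, a.2)
  invFun a := (e.symm ⁻¹' a.1, a.2)
  left_inv a := Prod.ext (Set.ext fun δ => by simp) rfl
  right_inv a := Prod.ext (Set.ext fun δ => by simp) rfl

/-- Translation. -/
def tl (γ : Gm I) : Perm (Bt I) := pre (Equiv.subRight γ)

theorem mem_tl (γ δ : Gm I) (a : Bt I) : δ ∈ (tl γ a).1 ↔ δ - γ ∈ a.1 := Iff.rfl

theorem tl_add (γ δ : Gm I) : tl (γ + δ) = tl γ * tl δ :=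
  Equiv.ext fun a => Prod.ext (Set.ext fun ε => by
    rw [Perm.mul_apply, mem_tl, mem_tl, mem_tl, sub_sub]) rfl

theorem tl_zero : tl (0 : Gm I) = 1 :=
  Equiv.ext fun a => Prod.ext (Set.ext fun ε => by rw [mem_tl, sub_zero]; rfl) rfl

theorem tl_inv (γ : Gm I) : (tl γ)⁻¹ = tl (-γ) :=
  inv_eq_of_mul_eq_one_right (by rw [← tl_add, add_neg_cancel, tl_zero])

theorem tl_comm (γ δ : Gm I) (a : Bt I) : tl γ (tl δ a) = tl δ (tl γ a) := by
  rw [← Perm.mul_apply, ← tl_add, add_comm, tl_add, Perm.mul_apply]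

def pl (τ : Perm Nd.{u}) (hτ : TA τ) (δ : Gm I) : Gm I :=
  ⟨fun p => δ.1 (τ p.1, p.2), fun i => by
    change δ.1 (τ [], i) = 0
    rw [hτ.1]
    exact δ.2.1 i, fun l s i => by
    obtain ⟨m, hm⟩ := hτ.2 l s
    change δ.1 (τ (l :: s), i) + δ.1 (τ (l :: s), i) = δ.1 (τ s, i)
    rw [hm]
    exact δ.2.2 m _ i⟩

def pull (τ : Perm Nd.{u}) (hτ : TA τ) : Perm (Gm I) where
  toFun := pl τ hτ
  invFun := pl τ⁻¹ hτ.inv
  left_inv δ := Subtype.ext (funext fun p => by simp [pl])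
  right_inv δ := Subtype.ext (funext fun p => by simp [pl])

/-- The permutation of the atoms given by an automorphism of the tree. -/
def tw (τ : Perm Nd.{u}) (hτ : TA τ) : Perm (Bt I) := pre (pull τ hτ)

theorem tw_inv (τ : Perm Nd.{u}) (hτ : TA τ) : (tw τ hτ : Perm (Bt I))⁻¹ = tw τ⁻¹ hτ.inv := rfl

theorem tl_tw (τ : Perm Nd.{u}) (hτ : TA τ) (γ : Gm I) :
    tl γ * tw τ hτ = tw τ hτ * tl (pl τ hτ γ) :=
  Equiv.ext fun _ => Prod.ext (Set.ext fun _ => Iff.rfl) rfl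

/-- `γ` vanishes on `F`. -/
def Van (F : Set (Nd.{u} × I)) (γ : Gm I) : Prop := ∀ p ∈ F, γ.1 p = 0

theorem Van.mono {F F' : Set (Nd.{u} × I)} {γ : Gm I} (h : Van F' γ) (hF : F ⊆ F') : Van F γ :=
  fun p hp => h p (hF hp)

theorem Van.add {F : Set (Nd.{u} × I)} {γ δ : Gm I} (h : Van F γ) (h' : Van F δ) :
    Van F (γ + δ) := fun p hp => by
  change γ.1 p + δ.1 p = 0
  rw [h p hp, h' p hp, add_zero]

theorem Van.neg {F : Set (Nd.{u} × I)} {γ : Gm I} (h : Van F γ) : Van F (-γ) := fun p hp => by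
  change -γ.1 p = 0
  rw [h p hp, neg_zero]

def Fx (F : Set (Nd.{u} × I)) : Set (Perm (Bt I)) := {g | ∃ γ, Van F γ ∧ g = tl γ}

/-- The atoms determined over the tree `S`, with tag in `B`. -/
def Full (S : Set Nd.{u}) (B : Set Ordinal.{u}) : Set (Bt I) :=
  {a | a.2 ∈ B ∧ ∀ γ, Van (Prod.fst ⁻¹' S) γ → tl γ a = a}

theorem Full.mono {S S' : Set Nd.{u}} {B B' : Set Ordinal.{u}} (hS : S ⊆ S') (hB : B ⊆ B') :
    (Full S B : Set (Bt I)) ⊆ Full S' B' :=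
  fun _ ha => ⟨hB ha.1, fun γ hγ => ha.2 γ (hγ.mono fun _ hp => hS hp)⟩

theorem Full.shift {S : Set Nd.{u}} {B : Set Ordinal.{u}} {a : Bt I} (h : a ∈ Full S B)
    (γ : Gm I) : tl γ a ∈ Full S B :=
  ⟨h.1, fun δ hδ => by rw [tl_comm, h.2 δ hδ]⟩

theorem Full.twist {S : Set Nd.{u}} {B : Set Ordinal.{u}} {a : Bt I} (h : a ∈ Full S B)
    (τ : Perm Nd.{u}) (hτ : TA τ) : tw τ hτ a ∈ Full (τ '' S) B :=
  ⟨h.1, fun δ hδ => by
    rw [← Perm.mul_apply, tl_tw, Perm.mul_apply,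
      h.2 _ fun p hp => hδ (τ p.1, p.2) ⟨p.1, hp, rfl⟩]⟩

theorem Full.small {S : Set Nd.{u}} {B : Set Ordinal.{u}} (hS : Small.{u} S) (hB : Small.{u} B) :
    Small.{u} (Full S B : Set (Bt I)) := by
  let res : Gm I → S × I → Ci := fun γ p => γ.1 (p.1, p.2)
  have key : ∀ a b : Bt I, b ∈ Full S B → res '' a.1 ⊆ res '' b.1 → a.1 ⊆ b.1 := by
    intro a b hb h δ hδ
    obtain ⟨ε, hε, e⟩ := h ⟨δ, hδ, rfl⟩
    rw [← hb.2 (δ - ε) fun p hp => sub_eq_zero.2 (congrFun e (⟨p.1, hp⟩, p.2)).symm, mem_tl,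
      sub_sub_cancel]
    exact hε
  refine small_of_injective (β := B × Set (S × I → Ci))
    (f := fun a => (⟨a.1.2, a.2.1⟩, res '' a.1.1)) fun a b h => Subtype.ext (Prod.ext ?_ ?_)
  · have h2 : res '' a.1.1 = res '' b.1.1 := congrArg Prod.snd h
    exact (key _ _ b.2 h2.subset).antisymm (key _ _ a.2 h2.symm.subset)
  · exact congrArg (fun p : B × Set (S × I → Ci) => p.1.1) h

def JJ (I : Type u) : Set (Set (Bt I)) :=
  {K | ∃ (S : Set Nd.{u}) (B : Set Ordinal.{u}), Good S ∧ Small.{u} B ∧ K ⊆ Full S B}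

def Nm (g : Perm (Bt I)) : Prop :=
  (∀ F, F.Finite → ∃ F', F'.Finite ∧ ∀ k ∈ Fx F', g⁻¹ * k * g ∈ Fx F) ∧ ∀ K ∈ JJ I, g '' K ∈ JJ I

theorem nm_tl (γ : Gm I) : Nm (tl γ) := by
  refine ⟨fun F hF => ⟨F, hF, ?_⟩, ?_⟩
  · rintro _ ⟨δ, hδ, rfl⟩
    refine ⟨δ, hδ, ?_⟩
    rw [tl_inv, ← tl_add, ← tl_add, neg_add_cancel_comm]
  · rintro K ⟨S, B, hS, hB, hK⟩
    refine ⟨S, B, hS, hB, ?_⟩
    rintro _ ⟨a, ha, rfl⟩
    exact Full.shift (hK ha) γ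

theorem nm_tw (τ : Perm Nd.{u}) (hτ : TA τ) : Nm (tw τ hτ : Perm (Bt I)) := by
  refine ⟨fun F hF => ⟨_, hF.image fun p => (τ p.1, p.2), ?_⟩, ?_⟩
  · rintro _ ⟨δ, hδ, rfl⟩
    refine ⟨pl τ hτ δ, fun p hp => hδ _ ⟨p, hp, rfl⟩, ?_⟩
    rw [mul_assoc, tl_tw, inv_mul_cancel_left]
  · rintro K ⟨S, B, hS, hB, hK⟩
    refine ⟨_, B, hS.image hτ, hB, ?_⟩
    rintro _ ⟨a, ha, rfl⟩
    exact Full.twist (hK ha) τ hτ

theorem tl_G (γ : Gm I) : Nm (tl γ) ∧ Nm (tl γ)⁻¹ := ⟨nm_tl γ, tl_inv γ ▸ nm_tl _⟩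

/-- The frame of the model. -/
def fr (I : Type u) : Frame (Bt I) where
  H := Fx '' {F | F.Finite}
  J := JJ I
  G := {g | Nm g ∧ Nm g⁻¹}
  H_ne := ⟨_, ∅, Set.finite_empty, rfl⟩
  H_dir := by
    rintro _ ⟨F, hF, rfl⟩ _ ⟨F', hF', rfl⟩
    exact ⟨_, ⟨_, Set.Finite.union hF hF', rfl⟩,
      fun _ ⟨γ, h, e⟩ => ⟨γ, h.mono Set.subset_union_left, e⟩,
      fun _ ⟨γ, h, e⟩ => ⟨γ, h.mono Set.subset_union_right, e⟩⟩
  H_sub := by
    rintro _ ⟨F, -, rfl⟩ _ ⟨γ, -, rfl⟩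
    exact tl_G γ
  G_inv _ h := ⟨h.2, h.1⟩
  G_conj := by
    rintro g hg _ ⟨F, hF, rfl⟩
    obtain ⟨F', hF', h⟩ := hg.1.1 F hF
    exact ⟨_, ⟨F', hF', rfl⟩, h⟩
  G_J _ hg := hg.1.2
  J_empty := ⟨∅, ∅, good_empty, inferInstance, Set.empty_subset _⟩
  J_mono := fun _ ⟨S, B, hS, hB, hK⟩ _ h => ⟨S, B, hS, hB, h.trans hK⟩
  J_union := fun _ ⟨S, B, hS, hB, hK⟩ _ ⟨S', B', hS', hB', hK'⟩ =>
    ⟨S ∪ S', B ∪ B', hS.union hS', inferInstance, Set.union_subset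
      (hK.trans (Full.mono Set.subset_union_left Set.subset_union_left))
      (hK'.trans (Full.mono Set.subset_union_right Set.subset_union_right))⟩
  J_small := fun _ ⟨S, B, hS, hB, hK⟩ => by
    have := Full.small (I := I) hS.small hB
    exact small_subset hK
  J_sym := fun _ ⟨S, B, hS, hB, hK⟩ => ⟨Full S B, ⟨S, B, hS, hB, subset_rfl⟩, hK, _,
    ⟨∅, Set.finite_empty, rfl⟩, by
      rintro _ ⟨γ, -, rfl⟩ a
      refine ⟨fun h => ?_, fun h => Full.shift h γ⟩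
      have := Full.shift h (-γ)
      rwa [← tl_inv, Perm.inv_def, symm_apply_apply] at this⟩
  amalg := by
    rintro K ⟨S, B, hS, hB, hK⟩ ι L hL
    choose R C hR hC hLR using hL
    have hS' := hS.union good_root
    obtain ⟨π, hfix, hG⟩ := amalg_tree hS' (Or.inr rfl) ι R hR
    refine ⟨fun x => tw _ (trE_TA (π x)), fun x => ⟨nm_tw _ _, nm_tw _ (trE_TA (π x)).inv⟩,
      fun x a ha => Prod.ext (Set.ext fun δ => ?_) rfl, _, ⋃ x, C x, hG, inferInstance, ?_⟩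
    · have h1 := (hK ha).2 (δ - pl _ (trE_TA (π x)) δ) fun p hp => by
        change δ.1 p - δ.1 (tr (π x) p.1, p.2) = 0
        rw [tr_fix _ _ fun c w hc => hfix x _ _ (hS'.suffix hc (Or.inl hp)), sub_self]
      conv_rhs => rw [← h1, mem_tl, sub_sub_cancel]
      rfl
    · intro a ha
      obtain ⟨x, b, hb, rfl⟩ := Set.mem_iUnion.1 ha
      refine Full.mono (fun s hs => ?_) (Set.subset_iUnion C x)
        (Full.twist (hLR x hb) _ (trE_TA (π x)))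
      exact Or.inr (Set.mem_iUnion.2 ⟨x, hs⟩)

/-! ### The action on the model -/

instance : AddAction (Gm I) (fr I).M where
  vadd γ a := ⟨tl γ • a.1, Frame.InM.smul (F := fr I) (tl_G γ) a.2⟩
  zero_vadd a := Subtype.ext (by
    change tl 0 • a.1 = a.1
    rw [tl_zero, one_smul])
  add_vadd γ δ a := Subtype.ext (by
    change tl (γ + δ) • a.1 = tl γ • tl δ • a.1
    rw [tl_add, mul_smul])

theorem vadd_val (γ : Gm I) (a : (fr I).M) : (γ +ᵥ a).1 = tl γ • a.1 := rfl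

theorem ind_eq {γ : Gm I} {e : Perm (fr I).M} (he : (fr I).Ind (tl γ) e) (a : (fr I).M) :
    e a = γ +ᵥ a := Subtype.ext (he a)

theorem ind_tl (γ : Gm I) : (fr I).Ind (tl γ) (AddAction.toPerm γ) := fun _ => rfl

theorem fx_mem {F : Set (Nd.{u} × I)} (hF : F.Finite) : Fx F ∈ (fr I).H := ⟨F, hF, rfl⟩

theorem sup0 (x : (fr I).M) : ∃ F : Set (Nd.{u} × I), F.Finite ∧ ∀ γ, Van F γ → γ +ᵥ x = x := by
  obtain ⟨_, ⟨F, hF, rfl⟩, h⟩ := x.2.sym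
  exact ⟨F, hF, fun γ hγ => Subtype.ext (h _ ⟨γ, hγ, rfl⟩)⟩

theorem ker_fix {S : Set Nd.{u}} {B : Set Ordinal.{u}} {x : (fr I).M}
    (h : ∀ a, Ker a x.1 → a ∈ Full S B) {γ : Gm I} (hγ : Van (Prod.fst ⁻¹' S) γ) : γ +ᵥ x = x :=
  Subtype.ext (smul_fix _ fun a ha => (h a ha).2 γ hγ)

theorem ker_vadd {S : Set Nd.{u}} {B : Set Ordinal.{u}} {x : (fr I).M}
    (h : ∀ a, Ker a x.1 → a ∈ Full S B) (γ : Gm I) (a : Bt I) (ha : Ker a (γ +ᵥ x).1) :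
    a ∈ Full S B := by
  have := Full.shift (h _ (ker_smul' (tl γ) ha)) γ
  rwa [Perm.inv_def, apply_symm_apply] at this

theorem E_vadd (γ : Gm I) (x y : (fr I).M) : (fr I).E (γ +ᵥ x) (γ +ᵥ y) ↔ (fr I).E x y :=
  (ind_tl γ).hE x y

/-- Cutting an element of the group along an upward closed set. -/
theorem mask (γ : Gm I) (W : Set (Nd.{u} × I)) (h1 : ∀ l s i, (s, i) ∈ W → (l :: s, i) ∈ W)
    (h2 : ∀ l s i, (l :: s, i) ∈ W → (s, i) ∉ W → γ.1 (s, i) = 0) :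
    ∃ δ : Gm I, (∀ p ∈ W, δ.1 p = γ.1 p) ∧ ∀ p ∉ W, δ.1 p = 0 := by
  classical
  refine ⟨⟨fun p => if p ∈ W then γ.1 p else 0, fun i => ?_, fun l s i => ?_⟩,
    fun p hp => if_pos hp, fun p hp => if_neg hp⟩
  · simp only [γ.2.1 i, ite_self]
  · by_cases h : (s, i) ∈ W
    · simp only [if_pos h, if_pos (h1 l s i h), γ.2.2 l s i]
    · by_cases h' : (l :: s, i) ∈ W
      · simp only [if_neg h, if_pos h', γ.2.2 l s i, h2 l s i h' h]
      · simp only [if_neg h, if_neg h', add_zero]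

/-- A finite support inside the tree that carries the kernel. -/
theorem sup1 {S : Set Nd.{u}} (hS : Good S) (x : (fr I).M)
    (h : ∀ γ : Gm I, Van (Prod.fst ⁻¹' S) γ → γ +ᵥ x = x) : ∃ F : Set (Nd.{u} × I), F.Finite ∧
      (∀ p ∈ F, p.1 ∈ S) ∧ ∀ γ, Van F γ → γ +ᵥ x = x := by
  obtain ⟨F, hF, hx⟩ := sup0 x
  refine ⟨{p | p.1 ∈ S ∧ ∃ q ∈ F, p.1 <:+ q.1 ∧ p.2 = q.2}, ?_, fun _ hp => hp.1, fun γ hγ => ?_⟩
  · refine (hF.biUnion (t := fun q => (fun s => (s, q.2)) '' {s | s ∈ q.1.tails})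
      fun q _ => (List.finite_toSet _).image _).subset ?_
    rintro p ⟨-, q, hq, h1, h2⟩
    exact Set.mem_biUnion hq ⟨p.1, (List.mem_tails _ _).2 h1, Prod.ext rfl h2.symm⟩
  obtain ⟨δ, h1, h2⟩ := mask γ {p | ∃ l s, l :: s <:+ p.1 ∧ l :: s ∉ S ∧ γ.1 (s, p.2) = 0}
    (fun l s i ⟨m, t, h1, h2⟩ => ⟨m, t, h1.trans (List.suffix_cons _ _), h2⟩)
    fun l s i ⟨m, t, h1, h2⟩ h3 => by
      rcases List.suffix_cons_iff.1 h1 with h1 | h1
      · rw [← (List.cons.inj h1).2]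
        exact h2.2
      · exact (h3 ⟨m, t, h1, h2⟩).elim
  have h3 : ∀ q ∈ F, ∀ w, w <:+ q.1 → γ.1 (w, q.2) ≠ 0 →
      ∃ l s, l :: s <:+ w ∧ l :: s ∉ S ∧ γ.1 (s, q.2) = 0 := fun q hq w => by
    induction w with
    | nil => exact fun _ h => (h (γ.2.1 _)).elim
    | cons l s ih =>
      intro hw hne
      by_cases h0 : γ.1 (s, q.2) = 0
      · exact ⟨l, s, List.suffix_refl _, fun hs => hne (hγ _ ⟨hs, q, hq, hw, rfl⟩), h0⟩
      · obtain ⟨m, t, h4, h5⟩ := ih ((List.suffix_cons _ _).trans hw) h0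
        exact ⟨m, t, h4.trans (List.suffix_cons _ _), h5⟩
  have h4 : (γ - δ) +ᵥ x = x := hx _ fun q hq => by
    change γ.1 q - δ.1 q = 0
    by_cases h0 : γ.1 q = 0
    · by_cases hW : q ∈ {p : Nd.{u} × I |
          ∃ l s, l :: s <:+ p.1 ∧ l :: s ∉ S ∧ γ.1 (s, p.2) = 0}
      · rw [h1 q hW, sub_self]
      · rw [h2 q hW, h0, sub_self]
    · rw [h1 q (h3 q hq q.1 (List.suffix_refl _) h0), sub_self]
  have h5 : δ +ᵥ x = x := h δ fun p hp => h2 p fun ⟨_, _, h6, h7, _⟩ => h7 (hS.suffix h6 hp)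
  rw [← sub_add_cancel γ δ, add_vadd, h5, h4]

end Pool.Agent.P.MP_4a6a31_lc.SP
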