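import Pool.Agent.P.MP_4a6a31_lc.SP.Plus

/-! Weak reflection fails in the halving model. -/

namespace Pool.Agent.P.MP_4a6a31_lc.SP

universe u v

open Equiv VV

/-- Every set has an oriented cover. -/
def psi : Fm 1 :=
  .all (fex (fex (.and
    (.all (fimp (fin3 3 0) (fex (frl 3 1 0))))
    (.all (.all (.all (.all (fimp (frl 5 3 1) (fimp (frl 5 2 0) (fimp (.neg (.eq 3 2))
      (.and (.neg (.and (frl 4 1 0) (frl 4 0 1))) (fimp (.neg (frl 4 0 1)) (frl 4 1 0)))))))))))))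

theorem sat_psi {M : Type v} {E : M → M → Prop} {U : M → Prop} {D : M → Prop}
    (hD : ∀ x y, D x → E y x → D y) (p : Fin 1 → M) :
    Sat E U D psi p ↔ ∀ x, D x → ∃ f, D f ∧ ∃ T, D T ∧ (∀ a, In3 E x a → ∃ b, Rl E f a b) ∧
      ∀ a a' b b', Rl E f a b → Rl E f a' b' → a ≠ a' →
        ¬ (Rl E T b b' ∧ Rl E T b' b) ∧ (¬ Rl E T b' b → Rl E T b b') := by
  simp only [psi, Sat, sat_ex, sat_imp]
  refine forall_congr' fun x => forall_congr' fun hx => exists_congr fun f =>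
    and_congr_right fun hf => exists_congr fun T => and_congr_right fun hT =>
      and_congr ⟨fun h a h1 => ?_, fun h a _ h1 => ?_⟩
      ⟨fun h a a' b b' h1 h2 h3 => ?_, fun h a _ a' _ b _ b' _ h1 h2 h3 => ?_⟩
  · obtain ⟨b, -, h2⟩ := h a (h1.dom hD hx) ((sat_in3 hD _ _ _ hx).2 h1)
    exact ⟨b, (sat_rl hD _ _ _ _ hf).1 h2⟩
  · obtain ⟨b, h2⟩ := h a ((sat_in3 hD _ _ _ hx).1 h1)
    exact ⟨b, h2.in_right.dom hD hf, (sat_rl hD _ _ _ _ hf).2 h2⟩
  · have := h a (h1.in_left.dom hD hf) a' (h2.in_left.dom hD hf) b (h1.in_right.dom hD hf)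
      b' (h2.in_right.dom hD hf) ((sat_rl hD _ _ _ _ hf).2 h1) ((sat_rl hD _ _ _ _ hf).2 h2) h3
    rwa [sat_rl hD _ _ _ _ hT, sat_rl hD _ _ _ _ hT] at this
  · rw [sat_rl hD _ _ _ _ hT, sat_rl hD _ _ _ _ hT]
    exact h a a' b b' ((sat_rl hD _ _ _ _ hf).1 h1) ((sat_rl hD _ _ _ _ hf).1 h2) h3

variable {I : Type u}

theorem suffix_child {s : Nd.{u}} : ∀ w m, s <:+ w → ∃ l, l :: s <:+ m :: w
  | [], m, h => ⟨m, by rw [List.suffix_nil.1 h]⟩
  | k :: w, m, h => by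
    rcases List.suffix_cons_iff.1 h with h | h
    · exact ⟨m, by rw [h]⟩
    · exact (suffix_child w k h).imp fun _ h => h.trans (List.suffix_cons _ _)

/-- `γ` lives on the cone of `s` in column `i`. -/
def Cone (s : Nd.{u}) (i : I) (γ : Gm I) : Prop := ∀ p, γ.1 p ≠ 0 → s <:+ p.1 ∧ p.2 = i

/-- A double splits over the cones of the children. -/
theorem split {s : Nd.{u}} {i : I} (b : (fr I).M)
    (h : ∀ l γ, Cone (l :: s) i γ → γ +ᵥ b = b) {γ : Gm I} (hγ : Cone s i γ) :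
    (γ + γ) +ᵥ b = b := by
  obtain ⟨F, hF, hb⟩ := sup0 b
  have key : ∀ F : Set (Nd.{u} × I), F.Finite → ∃ δ : Gm I,
      (∀ p, δ.1 p ≠ 0 → p.2 = i ∧ ∃ l, l :: s <:+ p.1) ∧ Van F δ ∧ δ +ᵥ b = (γ + γ) +ᵥ b := by
    intro F hF
    induction F, hF using Set.Finite.induction_on with
    | empty =>
      refine ⟨γ + γ, fun p hp => ?_, fun _ h => h.elim, rfl⟩
      obtain ⟨w, j⟩ := p
      cases w with
      | nil => exact (hp ((γ + γ).2.1 j)).elim
      | cons m w =>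
        have := hγ (w, j) fun e => hp ((γ.2.2 m w j).trans e)
        exact ⟨this.2, suffix_child w m this.1⟩
    | @insert p F _ _ ih =>
      obtain ⟨δ, h1, h2, h3⟩ := ih
      by_cases h0 : δ.1 p = 0
      · exact ⟨δ, h1, fun q hq => hq.elim (fun e => e ▸ h0) (h2 q), h3⟩
      obtain ⟨hi, l, hl⟩ := h1 p h0
      obtain ⟨η, e1, e2⟩ := mask δ {q | l :: s <:+ q.1 ∧ q.2 = i}
        (fun m t j hq => ⟨hq.1.trans (List.suffix_cons _ _), hq.2⟩) fun m t j hq hn => by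
          rcases List.suffix_cons_iff.1 hq.1 with e | e
          · by_contra hc
            obtain ⟨-, k, hk⟩ := h1 _ hc
            rw [(List.cons.inj e).2] at hk
            exact absurd hk.length_le (by simp)
          · exact (hn ⟨e, hq.2⟩).elim
      have e3 : ∀ q, δ.1 q = 0 → (δ - η).1 q = 0 := fun q hq => by
        change δ.1 q - η.1 q = 0
        by_cases hW : q ∈ {q : Nd.{u} × I | l :: s <:+ q.1 ∧ q.2 = i}
        · rw [e1 q hW, sub_self]
        · rw [e2 q hW, hq, sub_self]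
      refine ⟨δ - η, fun q hq => h1 q fun e => hq (e3 q e), fun q hq => ?_, ?_⟩
      · rcases hq with rfl | hq
        · exact sub_eq_zero.2 (e1 q ⟨hl, hi⟩).symm
        · exact e3 q (h2 q hq)
      · rw [← h3, ← sub_add_cancel δ η, add_vadd,
          h l η fun q hq => not_not.1 fun hn => hq (e2 q hn), sub_add_cancel]
  obtain ⟨δ, -, h2, h3⟩ := key F hF
  rw [← h3, hb δ h2]

/-- An element of the group that lives on one column and is not zero at the first level. -/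
theorem seed (i : I) : ∃ γ : Gm I, Cone [] i γ ∧ γ.1 ([0], i) ≠ 0 := by
  classical
  refine ⟨⟨fun p => if p.2 = i then (((1 / 2 : ℚ) ^ p.1.length : ℚ) : Ci) else 0, fun j => ?_,
    fun l s j => ?_⟩, fun p hp => ⟨List.nil_suffix, not_not.1 fun h => hp (if_neg h)⟩, ?_⟩
  · simp
  · by_cases h : j = i
    · simp only [if_pos h, List.length_cons]
      rw [← AddCircle.coe_add]
      congr 1
      ring
    · simp only [if_neg h, add_zero]
  · simp only [if_true, List.length_singleton, pow_one]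
    intro h
    obtain ⟨n, hn⟩ := (AddCircle.coe_eq_zero_iff _).1 h
    have h2 : ((2 * n : ℤ) : ℚ) = (1 : ℤ) := by
      push_cast
      rw [zsmul_eq_mul, mul_one] at hn
      rw [hn]
      norm_num
    have h3 : 2 * n = 1 := by exact_mod_cast h2
    omega

theorem not_rpm2 [Uncountable I] : ¬ RPm (fr I).E (fr I).U := by
  intro h
  have hS0 := good_suffixes ([0] : Nd.{u})
  have hv : ∀ i : I, ({([0], i)} : Set (Nd.{u} × I)) ⊆ Prod.fst ⁻¹' {t | t <:+ [0]} := by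
    rintro i _ rfl
    exact List.suffix_refl _
  choose y hy using fun i : I => exAt (cs {([0], i)} 0 0) (Set.finite_singleton _)
    (fun γ hγ => cs_fix hγ _ _) hS0 fun γ hγ => cs_fix (hγ.mono (hv i)) _ _
  obtain ⟨s0, -, hs0⟩ := Frame.hullM I y (K := Full {t | t <:+ [0]} {0})
    ⟨_, _, hS0, inferInstance, subset_rfl⟩ fun i a ha => by
      rw [hy] at ha
      rw [ker_atom ha]
      exact ⟨rfl, fun γ hγ => cs_fix (hγ.mono (hv i)) _ _⟩
  obtain ⟨q0, -, hq0⟩ := Frame.pairM s0 s0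
  obtain ⟨x0, -, hx⟩ := Frame.pairM q0 q0
  obtain ⟨t, -, htr, hx0, hsat⟩ := h 1 psi (fun _ => x0)
    ((sat_psi (fun _ _ _ _ => trivial) _).2 fun x _ =>
      let ⟨f, T, h⟩ := orient x; ⟨f, trivial, T, trivial, h⟩)
  choose nx hnt T _ hn1 hn2 using (sat_psi htr _).1 hsat
  let sq : ℕ → {x // (fr I).E x t} := fun n =>
    Nat.rec ⟨x0, hx0 0⟩ (fun _ x => ⟨nx x.1 x.2, hnt x.1 x.2⟩) n
  choose F hF hfix using fun n => sup0 (sq (n + 1)).1
  choose F' hF' hfix' using fun n => sup0 (T _ (sq n).2)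
  obtain ⟨i, hi⟩ : ∃ i, i ∉ Prod.snd '' ⋃ n, F n ∪ F' n := by
    by_contra hc
    refine Set.not_countable_univ (α := I) (((Set.countable_iUnion fun n =>
      ((hF n).union (hF' n)).countable).image Prod.snd).mono fun i _ => ?_)
    exact not_not.1 fun h => hc ⟨i, h⟩
  obtain ⟨S, B, hS, -, hK⟩ := t.2.2
  have out : ∀ s n a, s ∉ S → In3 (fr I).E (sq n).1 a → ∀ γ, Cone s i γ → γ +ᵥ a = a :=
    fun s n a hs ha γ hγ => ker_fix (fun c hc => hK (Ker.mem (ha.dom htr (sq n).2) hc))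
      fun p hp => not_not.1 fun h0 => hs (hS.suffix (hγ p h0).1 hp)
  have key : ∀ s n a, In3 (fr I).E (sq n).1 a → ∀ γ, Cone s i γ → γ +ᵥ a = a := fun s => by
    induction s using hS.wf.induction with | _ s ih => ?_
    intro n a ha γ hγ
    obtain ⟨b, hr⟩ := hn1 _ (sq n).2 a ha
    have hb : (γ + γ) +ᵥ b = b := split b (fun l δ hδ => by
      by_cases hl : l :: s ∈ S
      · exact ih _ ⟨hl, l, rfl⟩ (n + 1) b hr.in_right δ hδ
      · exact out _ (n + 1) b hl hr.in_right δ hδ) hγ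
    have hvan : Van (F n ∪ F' n) γ := fun p hp => not_not.1 fun h0 =>
      hi ⟨p, Set.mem_iUnion.2 ⟨n, hp⟩, (hγ p h0).2⟩
    have aut : ∀ {f a b : (fr I).M}, Rl (fr I).E f a b →
        Rl (fr I).E (γ +ᵥ f) (γ +ᵥ a) (γ +ᵥ b) :=
      fun h => rl_aut (AddAction.toPerm γ) (E_vadd γ) h
    have hr' := aut (f := (sq (n + 1)).1) hr
    rw [hfix n γ (hvan.mono Set.subset_union_left)] at hr'
    have hT := hfix' n γ (hvan.mono Set.subset_union_right)
    by_contra hne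
    obtain ⟨h1, h2⟩ := hn2 _ (sq n).2 _ _ _ _ hr hr' (Ne.symm hne)
    have e1 : Rl (fr I).E (T _ (sq n).2) b (γ +ᵥ b) → Rl (fr I).E (T _ (sq n).2) (γ +ᵥ b) b :=
      fun h => by simpa only [hT, ← add_vadd, hb] using aut h
    have e2 : Rl (fr I).E (T _ (sq n).2) (γ +ᵥ b) b → Rl (fr I).E (T _ (sq n).2) b (γ +ᵥ b) :=
      fun h => by simpa only [hT, ← add_vadd, hb] using aut h
    have e3 : ¬ Rl (fr I).E (T _ (sq n).2) (γ +ᵥ b) b := fun h => h1 ⟨e2 h, h⟩
    exact e3 (e1 (h2 e3))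
  obtain ⟨γ, hγ, hne⟩ := seed i
  have h1 := congrArg Subtype.val
    (key [] 0 (y i) ⟨q0, (hx _).2 (Or.inl rfl), s0, (hq0 _).2 (Or.inl rfl), hs0 i⟩ γ hγ)
  rw [vadd_val, hy, smul_atom, tl_cs] at h1
  have h2 := cs_van (atom_inj h1) _ rfl
  rw [add_zero, sub_zero] at h2
  exact hne h2

end Pool.Agent.P.MP_4a6a31_lc.SP
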