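import Pool.Agent.P.MP_4a6a31_lc.SP.Grp

/-! Every set of the model has a copy among the urelements and an oriented cover. -/

namespace Pool.Agent.P.MP_4a6a31_lc.SP

universe u

open Equiv VV

/-- An invariant relation is a set of the model. -/
theorem mkRel {A : Type (u + 1)} {F : Frame A} (R : F.M → F.M → Prop)
    (hS : Small.{u} {p : F.M × F.M | R p.1 p.2}) {K : Set A} (hK : K ∈ F.J)
    (hker : ∀ a b, R a b → ∀ c, Ker c a.1 ∨ Ker c b.1 → c ∈ K) {h : Set (Perm A)} (hh : h ∈ F.H)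
    (hinv : ∀ g ∈ h, ∀ e, F.Ind g e → ∀ a b, R (e a) (e b) ↔ R a b) :
    ∃ s, ∀ a b, Rl F.E s a b ↔ a ≠ b ∧ R b a := by
  choose q hq hqk using Frame.prM (F := F)
  obtain ⟨s, -, hm⟩ := Frame.mkM ((fun p : F.M × F.M => q p.1 p.2) '' {p | R p.1 p.2})
    (small_image _ _) hK (by
      rintro _ ⟨p, hp, rfl⟩ c hc
      exact hker _ _ hp c (hqk _ _ c hc)) hh fun g hg e he y => by
      have hqe : ∀ a b, q (e a) (e b) = e (q a b) := fun a b =>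
        Frame.pr_unique (hq _ _) ((pr_aut e he.hE _ _ _).2 (hq _ _))
      constructor
      · rintro ⟨⟨a, b⟩, hp, hy⟩
        obtain ⟨a, rfl⟩ := e.surjective a
        obtain ⟨b, rfl⟩ := e.surjective b
        exact ⟨(a, b), (hinv g hg e he a b).1 hp, e.injective ((hqe a b).symm.trans hy)⟩
      · rintro ⟨p, hp, rfl⟩
        exact ⟨(e p.1, e p.2), (hinv g hg e he _ _).2 hp, hqe _ _⟩
  refine ⟨s, fun a b => and_congr_right fun hab => ⟨?_, fun hR => ?_⟩⟩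
  · rintro ⟨r, hr, h1, t, h2, h3⟩
    obtain ⟨⟨b', a'⟩, hR, rfl⟩ := (hm r).1 hr
    have hp := hq b' a'
    obtain ⟨s, -, hs⟩ := Frame.pairM b' b'
    obtain rfl : b = b' :=
      ((hs b).1 (h1 s ((hp s).2 (Or.inl fun y => by rw [hs, or_self])))).elim id id
    rcases (hp t).1 h2 with h | h
    · exact (hab ((h a).1 h3)).elim
    · rwa [((h a).1 h3).resolve_left hab]
  · obtain ⟨t, -, ht⟩ := Frame.pairM b a
    have hp := hq b a
    refine ⟨_, (hm _).2 ⟨(b, a), hR, rfl⟩, fun s hs => ?_, t, (hp t).2 (Or.inr ht),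
      (ht a).2 (Or.inr rfl)⟩
    exact ((hp s).1 hs).elim (fun h => (h b).2 rfl) fun h => (h b).2 (Or.inl rfl)

theorem tags {α : Type (u + 1)} (X : Set α) (hX : Small.{u} X) (B : Set Ordinal.{u})
    (hB : Small.{u} B) : ∃ t : α → Ordinal.{u}, Set.InjOn t X ∧ ∀ a ∈ X, t a ∉ B := by
  classical
  obtain ⟨e, he, hf⟩ := fresh (B ∪ {0}) inferInstance (Shrink.{u} X)
  refine ⟨fun a => if h : a ∈ X then e (⟨0, Or.inr rfl⟩, equivShrink X ⟨a, h⟩) else 0,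
    fun a ha b hb h => ?_, fun a ha h => ?_⟩
  · simp only [dif_pos ha, dif_pos hb] at h
    exact congrArg Subtype.val ((equivShrink X).injective (congrArg Prod.snd (he h)))
  · simp only [dif_pos ha] at h
    exact hf _ (Or.inl h)

variable {I : Type u}

theorem exAt (c : Bt I) {F : Set (Nd.{u} × I)} (hF : F.Finite) (h1 : ∀ γ, Van F γ → tl γ c = c)
    {S : Set Nd.{u}} (hS : Good S) (h2 : ∀ γ, Van (Prod.fst ⁻¹' S) γ → tl γ c = c) :
    ∃ y : (fr I).M, y.1 = atom c :=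
  ⟨⟨atom c, .intro _ ⟨_, fx_mem hF, by
      rintro _ ⟨γ, hγ, rfl⟩
      rw [smul_atom, h1 γ hγ]⟩ fun y hy => (not_mem_atom y c hy).elim,
    S, {c.2}, hS, inferInstance, fun b hb => by
      rw [ker_atom hb]
      exact ⟨rfl, h2⟩⟩, rfl⟩

/-- Every set is mapped injectively to urelements. -/
theorem plus (x : (fr I).M) : ∃ f, Fn (fr I).E (fr I).U f x ∧
    (∀ a b, App (fr I).E f a b → (fr I).U b) ∧
      ∀ a a' b, App (fr I).E f a b → App (fr I).E f a' b → a = a' := by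
  let r : (fr I).M → (fr I).M := fun a => (Quotient.mk (AddAction.orbitRel (Gm I) _) a).out
  have hr1 : ∀ (γ : Gm I) a, r (γ +ᵥ a) = r a := fun γ a =>
    congrArg Quotient.out (Quotient.sound (⟨γ, rfl⟩ : γ +ᵥ a ∈ AddAction.orbit (Gm I) a))
  have hr2 : ∀ a, ∃ γ : Gm I, γ +ᵥ r a = a := fun a =>
    (AddAction.orbitRel (Gm I) _).symm (Quotient.mk_out (s := AddAction.orbitRel (Gm I) _) a)
  have := Frame.smallE x
  obtain ⟨t, ht, -⟩ := tags (r '' {a | (fr I).E a x}) (small_image _ _) ∅ inferInstance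
  let c : (fr I).M → Bt I := fun a => ({γ | γ +ᵥ r a = a}, t (r a))
  have hc : ∀ (δ : Gm I) a, tl δ (c a) = c (δ +ᵥ a) := fun δ a =>
    Prod.ext (Set.ext fun γ => by
      change (γ - δ) +ᵥ r a = a ↔ γ +ᵥ r (δ +ᵥ a) = δ +ᵥ a
      rw [hr1, sub_eq_neg_add, add_vadd, neg_vadd_eq_iff]) (congrArg t (hr1 δ a).symm)
  have hf : ∀ a, ∃ y : (fr I).M, y.1 = atom (c a) := fun a => by
    obtain ⟨F, hF, h1⟩ := sup0 a
    obtain ⟨S, B, hS, -, h2⟩ := a.2.2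
    exact exAt _ hF (fun γ hγ => by rw [hc, h1 γ hγ]) hS fun γ hγ => by rw [hc, ker_fix h2 hγ]
  choose f hf using hf
  obtain ⟨S, B, hS, -, hK⟩ := x.2.2
  obtain ⟨s, hs, happ⟩ := Frame.mkFun x f (K := Full S (t '' (r '' {a | (fr I).E a x})))
    ⟨S, _, hS, small_image _ _, subset_rfl⟩ (fun a ha b hb => by
      rw [hf] at hb
      rw [ker_atom hb]
      exact ⟨⟨_, ⟨a, ha, rfl⟩, rfl⟩, fun γ hγ => by
        rw [hc, ker_fix (fun b hb => hK (Ker.mem ha hb)) hγ]⟩) (fx_mem Set.finite_empty) (by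
      rintro _ ⟨γ, -, rfl⟩ e he a -
      rw [ind_eq he, ind_eq he]
      exact Subtype.ext (by rw [hf, vadd_val, hf, smul_atom, hc]))
  refine ⟨s, hs, fun a b h => ⟨c a, by rw [((happ _ _).1 h).2, hf]⟩, fun a a' b h h' => ?_⟩
  obtain ⟨ha, e⟩ := (happ _ _).1 h
  obtain ⟨ha', e'⟩ := (happ _ _).1 h'
  have h1 : c a = c a' := atom_inj (by rw [← hf, ← hf, ← e, ← e'])
  have h2 : r a = r a' := ht ⟨a, ha, rfl⟩ ⟨a', ha', rfl⟩ (congrArg Prod.snd h1)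
  obtain ⟨γ, hγ⟩ := hr2 a
  have h3 : γ ∈ (c a').1 := h1 ▸ hγ
  rw [← hγ, h2]
  exact h3

/-- A coset of the subgroup vanishing on `F`. -/
def cs (F : Set (Nd.{u} × I)) (g : Gm I) (ξ : Ordinal.{u}) : Bt I := ({δ | Van F (δ - g)}, ξ)

theorem tl_cs (F : Set (Nd.{u} × I)) (γ g : Gm I) (ξ : Ordinal.{u}) :
    tl γ (cs F g ξ) = cs F (γ + g) ξ :=
  Prod.ext (Set.ext fun δ => by
    change Van F (δ - γ - g) ↔ Van F (δ - (γ + g))
    rw [sub_sub]) rfl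

theorem cs_fix {F : Set (Nd.{u} × I)} {γ : Gm I} (h : Van F γ) (g : Gm I) (ξ : Ordinal.{u}) :
    tl γ (cs F g ξ) = cs F g ξ :=
  Prod.ext (Set.ext fun δ => by
    change Van F (δ - γ - g) ↔ Van F (δ - g)
    refine ⟨fun h1 => ?_, fun h1 => ?_⟩
    · have := h1.add h
      rwa [show δ - γ - g + γ = δ - g by abel] at this
    · have := h1.add h.neg
      rwa [show δ - g + -γ = δ - γ - g by abel] at this) rfl

theorem cs_van {F : Set (Nd.{u} × I)} {g g' : Gm I} {ξ ξ' : Ordinal.{u}}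
    (h : cs F g ξ = cs F g' ξ') : Van F (g - g') := by
  have h1 : g ∈ (cs F g ξ).1 := fun p _ => by rw [sub_self]; rfl
  rwa [h] at h1

/-- A cover on which a double fixes a point only if the half fixes its image. -/
theorem cover (x : (fr I).M) : ∃ (R : (fr I).M → (fr I).M → Prop) (K : Set (Bt I)), K ∈ JJ I ∧
    (∀ a, In3 (fr I).E x a → ∃ b, R b a) ∧ (∀ b a, R b a → a ≠ b) ∧
    (∀ b a, R b a → (∃ c ∈ K, b.1 = atom c) ∧ ∀ c, Ker c a.1 → c ∈ K) ∧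
    (∀ b a a', R b a → R b a' → a = a') ∧ (∀ (γ : Gm I) b a, R b a → R (γ +ᵥ b) (γ +ᵥ a)) ∧
    ∀ (γ : Gm I) b a, R b a → γ +ᵥ γ +ᵥ b = b → γ +ᵥ a = a := by
  obtain ⟨S, B, hS, hB, hK⟩ := x.2.2
  let X : Set (fr I).M := {a | In3 (fr I).E x a}
  have hX : Small.{u} X := by
    obtain ⟨y, -, hy⟩ := Frame.unionM x
    obtain ⟨z, -, hz⟩ := Frame.unionM y
    have := Frame.smallE z
    exact small_subset (s := {a | (fr I).E a z}) fun a ⟨q, h1, s, h2, h3⟩ =>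
      (hz a).2 ⟨s, (hy s).2 ⟨q, h1, h2⟩, h3⟩
  have hk : ∀ a ∈ X, ∀ c, Ker c a.1 → c ∈ Full S B := fun a ⟨q, h1, s, h2, h3⟩ c hc =>
    hK (Ker.mem h1 (Ker.mem h2 (Ker.mem h3 hc)))
  have hE : ∀ a, ∃ F : Set (Nd.{u} × I), a ∈ X → F.Finite ∧ (∀ p ∈ F, p.1 ∈ S) ∧
      ∀ γ, Van F γ → γ +ᵥ a = a := fun a => by
    by_cases ha : a ∈ X
    · exact (sup1 hS a fun γ hγ => ker_fix (hk a ha) hγ).imp fun F hF _ => hF
    · exact ⟨∅, fun h => (ha h).elim⟩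
  choose F hF using hE
  obtain ⟨t, ht, htB⟩ := tags X hX B hB
  let P : (fr I).M → Set (Nd.{u} × I) := fun a => (fun p => (0 :: p.1, p.2)) '' F a
  have hS' := hS.grow {0} inferInstance
  have hP : ∀ a ∈ X, P a ⊆ Prod.fst ⁻¹' (S ∪ Set.image2 List.cons {0} S) := by
    rintro a ha _ ⟨p, hp, rfl⟩
    exact Or.inr ⟨0, rfl, p.1, (hF a ha).2.1 p hp, rfl⟩
  have h2 : ∀ a ∈ X, ∀ γ : Gm I, Van (P a) (γ + γ) → γ +ᵥ a = a := fun a ha γ hγ =>
    (hF a ha).2.2 γ fun p hp => (γ.2.2 0 p.1 p.2).symm.trans (hγ _ ⟨p, hp, rfl⟩)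
  have h1 : ∀ a ∈ X, ∀ γ : Gm I, Van (P a) γ → γ +ᵥ a = a := fun a ha γ hγ =>
    h2 a ha γ (hγ.add hγ)
  refine ⟨fun b a' => ∃ a ∈ X, ∃ g : Gm I, b.1 = atom (cs (P a) g (t a)) ∧ a' = g +ᵥ a,
    Full (S ∪ Set.image2 List.cons {0} S) (B ∪ t '' X),
    ⟨_, _, hS', inferInstance, subset_rfl⟩, fun a ha => ?_, ?_, ?_, ?_, ?_, ?_⟩
  · obtain ⟨b, hb⟩ := exAt (cs (P a) 0 (t a)) ((hF a ha).1.image _) (fun γ hγ => cs_fix hγ _ _)
      hS' fun γ hγ => cs_fix (hγ.mono (hP a ha)) _ _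
    exact ⟨b, a, ha, 0, hb, (zero_vadd _ _).symm⟩
  · rintro b _ ⟨a, ha, g, hb, rfl⟩ e
    exact htB a ha (ker_vadd (hk a ha) g (cs (P a) g (t a)) (by rw [e, hb]; exact Ker.atom)).1
  · rintro b _ ⟨a, ha, g, hb, rfl⟩
    exact ⟨⟨_, ⟨Or.inr ⟨a, ha, rfl⟩, fun γ hγ => cs_fix (hγ.mono (hP a ha)) _ _⟩, hb⟩,
      fun c hc => Full.mono Set.subset_union_left Set.subset_union_left
        (ker_vadd (hk a ha) g c hc)⟩
  · rintro b _ _ ⟨a, ha, g, hb, rfl⟩ ⟨a', ha', g', hb', rfl⟩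
    have e := atom_inj (hb.symm.trans hb')
    obtain rfl : a = a' := ht ha ha' (congrArg Prod.snd e)
    rw [← sub_add_cancel g g', add_comm, add_vadd, h1 a ha _ (cs_van e)]
  · rintro γ b _ ⟨a, ha, g, hb, rfl⟩
    exact ⟨a, ha, γ + g, by rw [vadd_val, hb, smul_atom, tl_cs], (add_vadd _ _ _).symm⟩
  · rintro γ b _ ⟨a, ha, g, hb, rfl⟩ e
    have e1 := congrArg Subtype.val e
    rw [vadd_val, vadd_val, hb, smul_atom, smul_atom, tl_cs, tl_cs] at e1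
    have e2 := cs_van (atom_inj e1)
    rw [← add_assoc, add_sub_cancel_right] at e2
    rw [← add_vadd, add_comm, add_vadd, h2 a ha γ e2]

/-- Every set has an oriented cover. -/
theorem orient (x : (fr I).M) : ∃ f T : (fr I).M,
    (∀ a, In3 (fr I).E x a → ∃ b, Rl (fr I).E f a b) ∧
    ∀ a a' b b', Rl (fr I).E f a b → Rl (fr I).E f a' b' → a ≠ a' →
      ¬ (Rl (fr I).E T b b' ∧ Rl (fr I).E T b' b) ∧
        (¬ Rl (fr I).E T b' b → Rl (fr I).E T b b') := by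
  obtain ⟨R, K, hK, h1, h2, h3, h4, h5, h6⟩ := cover x
  have h5' : ∀ (γ : Gm I) b a, R (γ +ᵥ b) (γ +ᵥ a) ↔ R b a := fun γ b a =>
    ⟨fun h => by simpa using h5 (-γ) _ _ h, h5 γ b a⟩
  let Y : Set (fr I).M := {b | ∃ a, R b a}
  have hY : Small.{u} Y := by
    have := (fr I).J_small K hK
    choose c hc hc' using fun b : Y => (h3 _ _ b.2.choose_spec).1
    exact small_of_injective (f := fun b => (⟨c b, hc b⟩ : K)) fun b b' h => Subtype.ext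
      (Subtype.ext (by rw [hc', hc', show c b = c b' from congrArg Subtype.val h]))
  have hYk : ∀ b ∈ Y, ∀ c, Ker c b.1 → c ∈ K := fun b ⟨a, ha⟩ c hc => by
    obtain ⟨c', h, e⟩ := (h3 b a ha).1
    rw [e] at hc
    rwa [ker_atom hc]
  have hYv : ∀ (γ : Gm I) b, γ +ᵥ b ∈ Y ↔ b ∈ Y := fun γ b =>
    ⟨fun ⟨a, h⟩ => ⟨-γ +ᵥ a, by simpa using h5 (-γ) _ _ h⟩, fun ⟨a, h⟩ => ⟨_, h5 γ b a h⟩⟩
  obtain ⟨f, hf⟩ := mkRel R (small_of_injective (β := Y) (f := fun p => ⟨p.1.1, _, p.2⟩)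
    fun p p' h => by
      have e : p.1.1 = p'.1.1 := congrArg Subtype.val h
      exact Subtype.ext (Prod.ext e (h4 _ _ _ p.2 (e ▸ p'.2)))) hK
    (fun b a h c hc => hc.elim (hYk b ⟨a, h⟩ c) ((h3 b a h).2 c)) (fx_mem Set.finite_empty) (by
      rintro _ ⟨γ, -, rfl⟩ e he b a
      rw [ind_eq he, ind_eq he, h5'])
  let o : (fr I).M → (fr I).M → Set ((fr I).M × (fr I).M) := fun b b' =>
    {p | ∃ γ : Gm I, p = (γ +ᵥ b, γ +ᵥ b')}
  have ho : ∀ (δ : Gm I) b b', o (δ +ᵥ b) (δ +ᵥ b') = o b b' := fun δ b b' => Set.ext fun p =>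
    ⟨fun ⟨γ, h⟩ => ⟨γ + δ, by rw [h, add_vadd, add_vadd]⟩,
      fun ⟨γ, h⟩ => ⟨γ - δ, by rw [h, ← add_vadd, ← add_vadd, sub_add_cancel]⟩⟩
  obtain ⟨T, hT⟩ := mkRel (fun b b' => b ∈ Y ∧ b' ∈ Y ∧ WellOrderingRel (o b b') (o b' b))
    (small_of_injective (β := Y × Y) (f := fun p => (⟨p.1.1, p.2.1⟩, ⟨p.1.2, p.2.2.1⟩))
      fun p p' h => Subtype.ext (Prod.ext (congrArg (fun q : Y × Y => q.1.1) h)
        (congrArg (fun q : Y × Y => q.2.1) h))) hK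
    (fun b b' h c hc => hc.elim (hYk b h.1 c) (hYk b' h.2.1 c)) (fx_mem Set.finite_empty) (by
      rintro _ ⟨γ, -, rfl⟩ e he b a
      rw [ind_eq he, ind_eq he, hYv, hYv, ho, ho])
  refine ⟨f, T, fun a ha => (h1 a ha).imp fun b hb => (hf a b).2 ⟨h2 b a hb, hb⟩,
    fun a a' b b' hb hb' hne => ⟨fun ⟨p, q⟩ => ?_, fun hn => ?_⟩⟩
  · exact asymm ((hT _ _).1 p).2.2.2 ((hT _ _).1 q).2.2.2
  · replace hb := ((hf _ _).1 hb).2
    replace hb' := ((hf _ _).1 hb').2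
    have hbb : b ≠ b' := fun e => hne (h4 b _ _ hb (e ▸ hb'))
    refine (hT _ _).2 ⟨hbb, ⟨_, hb'⟩, ⟨_, hb⟩, ?_⟩
    rcases trichotomous_of WellOrderingRel (o b' b) (o b b') with h | h | h
    · exact h
    · obtain ⟨γ, e⟩ : (b', b) ∈ o b b' := h ▸ ⟨0, by rw [zero_vadd, zero_vadd]⟩
      obtain ⟨e1, e2⟩ := Prod.mk.inj e
      have e3 := h5 γ b a hb
      rw [h6 γ b a hb (by rw [← e1, ← e2]), ← e1] at e3
      exact (hne (h4 b' _ _ e3 hb')).elim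
    · exact (hn ((hT _ _).2 ⟨hbb.symm, ⟨_, hb⟩, ⟨_, hb'⟩, h⟩)).elim

end Pool.Agent.P.MP_4a6a31_lc.SP
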